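import Pool.Agent.U162.SH.Stm

set_option autoImplicit false

/-! Project SH, package BOOT: continuity argument. -/

namespace Pool.Agent.U402.SH

open Set Pool.Agent.U162.SH

theorem t_BOOT : S_BOOT := by
  intro T a γ A hA h0 ha hγ hag h t ht
  by_contra hlt
  rw [not_le] at hlt
  rcases hγ.eq_or_lt with hg | hg
  · have := h t ht
    rw [← hg] at this
    linarith
  · have hlow : 2 * a < min (A t) (1 / (2 * γ)) := by
      refine lt_min hlt ?_
      rw [lt_div_iff₀ (by positivity)]
      linarith
    obtain ⟨r, hr1, hr2⟩ := exists_between hlow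
    have hr3 := hr2.trans_le (min_le_left _ _)
    have hr4 := hr2.trans_le (min_le_right _ _)
    have hmem : r ∈ Icc (A 0) (A t) := ⟨by rw [h0]; linarith, hr3.le⟩
    obtain ⟨t2, ht2, h2⟩ :=
      intermediate_value_Icc ht.1 (hA.mono (Icc_subset_Icc_right ht.2)) hmem
    have h3 := h t2 ⟨ht2.1, ht2.2.trans ht.2⟩
    rw [h2] at h3
    have h5 : r * (2 * γ) < 1 := (lt_div_iff₀ (by positivity)).mp hr4
    have h6 : 0 < r := by linarith
    nlinarith

end Pool.Agent.U402.SH
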